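import Mathlib

/-! The values of `π(k n)`: the value `v` is attained once for each multiple of `n` between the
primes number `v` and `v + 1`. -/

set_option autoImplicit false

open Finset

namespace Pool.Agent.Helper52.PN

open Nat (primeCounting nth count)

theorem inf_primes : (Set.ofPred Nat.Prime).Infinite := Nat.infinite_setOfPred_prime

theorem le_pi_iff {v m : ℕ} (hv : 1 ≤ v) : v ≤ primeCounting m ↔ nth Nat.Prime (v - 1) ≤ m := by
  have h := Nat.lt_nth_iff_count_lt inf_primes (a := v - 1) (b := m + 1)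
  have h2 : primeCounting m = count Nat.Prime (m + 1) := rfl
  rw [h2]
  constructor
  · intro h3
    have := h.1 (by omega)
    omega
  · intro h3
    have := h.2 (by omega)
    omega

/-- the `v`-th prime, `v ≥ 1` -/
noncomputable def pr (v : ℕ) : ℕ := nth Nat.Prime (v - 1)

theorem pr_prime (v : ℕ) : (pr v).Prime := Nat.prime_nth_prime _

theorem pr_lt {v : ℕ} (hv : 1 ≤ v) : pr v < pr (v + 1) :=
  Nat.nth_strictMono inf_primes (by omega)

/-- the class of `v` is attained -/
theorem pi_eq {v m : ℕ} (hv : 1 ≤ v) (h1 : pr v ≤ m) (h2 : m < pr (v + 1)) :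
    primeCounting m = v := by
  have h3 := (le_pi_iff hv).2 h1
  have h4 : ¬ v + 1 ≤ primeCounting m := by
    rw [le_pi_iff (by omega)]
    exact not_le.2 h2
  omega

/-- The number of `k ≤ K` with `π(k n) = v`. -/
theorem card_value {n K v : ℕ} (hn : 1 ≤ n) (hv : 1 ≤ v) (hvP : v + 1 ≤ primeCounting (K * n)) :
    ((pr (v + 1) : ℝ) - pr v) / n - 1 ≤
      (((Icc 1 K).filter fun k => primeCounting (k * n) = v).card : ℝ) := by
  classical
  have hn0 : 0 < n := by omega
  have hlt := pr_lt hv
  have hqK : pr (v + 1) ≤ K * n := (le_pi_iff (by omega)).1 hvP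
  have hp1 : 1 ≤ pr v := (pr_prime v).one_lt.le
  obtain ⟨p, hp⟩ : ∃ p, p = pr v := ⟨_, rfl⟩
  obtain ⟨q, hq⟩ : ∃ q, q = pr (v + 1) := ⟨_, rfl⟩
  rw [← hp, ← hq] at hlt
  rw [← hp] at hp1
  rw [← hq] at hqK
  obtain ⟨a, ha⟩ : ∃ a, a = (p + n - 1) / n := ⟨_, rfl⟩
  obtain ⟨b, hb⟩ : ∃ b, b = (q + n - 1) / n := ⟨_, rfl⟩
  have ha1 : a * n ≤ p + n - 1 := by rw [ha]; exact Nat.div_mul_le_self _ _
  have ha2 : p + n - 1 < a * n + n := by
    rw [ha]; exact Nat.lt_div_mul_add hn0
  have hb1 : b * n ≤ q + n - 1 := by rw [hb]; exact Nat.div_mul_le_self _ _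
  have hb2 : q + n - 1 < b * n + n := by
    rw [hb]; exact Nat.lt_div_mul_add hn0
  have hsub : Ico a b ⊆ (Icc 1 K).filter fun k => primeCounting (k * n) = v := by
    intro k hk
    rw [mem_Ico] at hk
    have h1 : a * n ≤ k * n := Nat.mul_le_mul_right n hk.1
    have h2 : (k + 1) * n ≤ b * n := Nat.mul_le_mul_right n hk.2
    have h3 : (k + 1) * n = k * n + n := by ring
    have h4 : p ≤ k * n := by omega
    have h5 : k * n < q := by omega
    rw [mem_filter, mem_Icc]
    refine ⟨⟨?_, ?_⟩, pi_eq hv (hp ▸ h4) (hq ▸ h5)⟩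
    · rcases Nat.eq_zero_or_pos k with h0 | h0
      · rw [h0] at h4
        omega
      · exact h0
    · by_contra hcon
      have h6 : (K + 1) * n ≤ k * n := Nat.mul_le_mul_right n (by omega)
      have h7 : (K + 1) * n = K * n + n := by ring
      omega
  have hcard : ((b - a : ℕ) : ℝ) ≤
      (((Icc 1 K).filter fun k => primeCounting (k * n) = v).card : ℝ) := by
    have := card_le_card hsub
    rw [Nat.card_Ico] at this
    exact_mod_cast this
  refine le_trans ?_ hcard
  rw [← hp, ← hq]
  have hn' : (0 : ℝ) < n := by exact_mod_cast hn0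
  have h8 : ((b : ℝ) - a) ≤ ((b - a : ℕ) : ℝ) := by
    rw [sub_le_iff_le_add]
    have : b ≤ b - a + a := by omega
    exact_mod_cast this
  refine le_trans ?_ h8
  have h9 : (q : ℝ) ≤ b * n := by
    have : q ≤ b * n := by omega
    exact_mod_cast this
  have h10 : (a : ℝ) * n ≤ p + n := by
    have : a * n ≤ p + n := by omega
    exact_mod_cast this
  have h11 : ((q : ℝ) - p) / n - 1 = ((q : ℝ) - p - n) / n := by
    field_simp
  rw [h11, div_le_iff₀ hn']
  linarith

/-- the indices of the primes followed by a short gap -/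
noncomputable def short (n K : ℕ) (H : ℝ) : Finset ℕ :=
  (Ico 1 (primeCounting (K * n))).filter fun v => (pr (v + 1) : ℝ) - pr v < H

theorem card_short_le {n K : ℕ} {H : ℝ} (hH : 0 ≤ H) : (short n K H).card ≤
    ∑ h ∈ Ioc 0 ⌊H⌋₊, ((range (K * n)).filter (fun m => m.Prime ∧ (m + h).Prime)).card := by
  classical
  have h1 : (short n K H).card = ((short n K H).image fun v =>
      (⟨pr (v + 1) - pr v, pr v⟩ : Σ _ : ℕ, ℕ)).card := by
    rw [card_image_of_injOn]
    intro v hv w hw hvw
    have hv1 := (mem_Ico.1 (mem_filter.1 (mem_coe.1 hv)).1).1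
    have hw1 := (mem_Ico.1 (mem_filter.1 (mem_coe.1 hw)).1).1
    simp only [Sigma.mk.injEq, heq_eq_eq] at hvw
    have := Nat.nth_injective inf_primes hvw.2
    omega
  rw [h1, ← card_sigma]
  apply card_le_card
  intro x hx
  rw [mem_image] at hx
  obtain ⟨v, hv, rfl⟩ := hx
  rw [short, mem_filter, mem_Ico] at hv
  obtain ⟨⟨hv1, hv2⟩, hv3⟩ := hv
  have hlt := pr_lt hv1
  have hqK : pr (v + 1) ≤ K * n := (le_pi_iff (by omega)).1 hv2
  rw [mem_sigma, mem_Ioc, mem_filter, mem_range]
  refine ⟨⟨?_, ?_⟩, ?_, pr_prime v, ?_⟩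
  · show 0 < pr (v + 1) - pr v
    omega
  · show pr (v + 1) - pr v ≤ ⌊H⌋₊
    rw [Nat.le_floor_iff hH, Nat.cast_sub hlt.le]
    exact hv3.le
  · show pr v < K * n
    omega
  · have : pr v + (pr (v + 1) - pr v) = pr (v + 1) := by omega
    simp only [this]
    exact pr_prime _

/-- a full system of values in the class of `r` -/
theorem class_card {n r P : ℕ} (hr : r < n) :
    P / n ≤ ((Ico 1 (P + 1)).filter fun v => v ≡ r [MOD n]).card := by
  classical
  have hn : 0 < n := by omega
  let f : ℕ → ℕ := fun j => (if r = 0 then n else r) + j * n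
  have hf : Function.Injective f := by
    intro i j hij
    have h1 : i * n = j * n := Nat.add_left_cancel hij
    exact Nat.eq_of_mul_eq_mul_right hn h1
  rw [← card_range (P / n), ← card_image_of_injective (range (P / n)) hf]
  apply card_le_card
  intro v hv
  rw [mem_image] at hv
  obtain ⟨j, hj, rfl⟩ := hv
  rw [mem_range] at hj
  have h1 : (j + 1) * n ≤ P := by
    calc (j + 1) * n ≤ (P / n) * n := Nat.mul_le_mul_right n hj
      _ ≤ P := Nat.div_mul_le_self _ _
  have h2 : (j + 1) * n = j * n + n := by ring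
  rw [mem_filter, mem_Ico]
  refine ⟨?_, ?_⟩
  · show 1 ≤ (if r = 0 then n else r) + j * n ∧ (if r = 0 then n else r) + j * n < P + 1
    split_ifs with h0 <;> omega
  · show (if r = 0 then n else r) + j * n ≡ r [MOD n]
    unfold Nat.ModEq
    rw [Nat.add_mul_mod_self_right]
    split_ifs with h0
    · rw [h0, Nat.mod_self, Nat.zero_mod]
    · rfl

/-- The `k ≤ K` with `π(k n)` in the class of `r`. -/
def hits (n K r : ℕ) : Finset ℕ :=
  (Icc 1 K).filter fun k => primeCounting (k * n) ≡ r [MOD n]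

/-- The values in the class of `r` followed by a long gap. -/
theorem long_le {n K r : ℕ} {H : ℝ} (hn : 1 ≤ n) :
    ((((Ico 1 (primeCounting (K * n))).filter fun v => v ≡ r [MOD n]).card : ℝ) -
      (((short n K H).filter fun v => v ≡ r [MOD n]).card : ℝ)) * (H / n - 1) ≤
        ((hits n K r).card : ℝ) ∨ H / n - 1 < 0 := by
  classical
  rcases lt_or_ge (H / n - 1) 0 with hneg | hpos
  · right; exact hneg
  left
  have hn' : (0 : ℝ) < n := by exact_mod_cast hn
  set S := (Ico 1 (primeCounting (K * n))).filter fun v => v ≡ r [MOD n] with hS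
  set T := S.filter fun v => H ≤ (pr (v + 1) : ℝ) - pr v with hT
  have h1 : S.card ≤ T.card + ((short n K H).filter fun v => v ≡ r [MOD n]).card := by
    refine (card_le_card (t := T ∪ (short n K H).filter fun v => v ≡ r [MOD n]) ?_).trans
      (card_union_le _ _)
    intro v hv
    rw [mem_union]
    have hv' := mem_filter.1 hv
    by_cases h : H ≤ (pr (v + 1) : ℝ) - pr v
    · left; exact mem_filter.2 ⟨hv, h⟩
    · right
      exact mem_filter.2 ⟨mem_filter.2 ⟨hv'.1, not_le.1 h⟩, hv'.2⟩
  have h1' : (S.card : ℝ) - (((short n K H).filter fun v => v ≡ r [MOD n]).card : ℝ) ≤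
      T.card := by
    have : (S.card : ℝ) ≤ (T.card : ℝ) +
      (((short n K H).filter fun v => v ≡ r [MOD n]).card : ℝ) := by exact_mod_cast h1
    linarith
  have h2 : T.biUnion (fun v => (Icc 1 K).filter fun k => primeCounting (k * n) = v) ⊆
      hits n K r := by
    intro k hk
    rw [mem_biUnion] at hk
    obtain ⟨v, hv, hk⟩ := hk
    rw [mem_filter] at hk
    have hv1 := (mem_filter.1 (mem_filter.1 hv).1).2
    rw [hits, mem_filter]
    exact ⟨hk.1, by rw [hk.2]; exact hv1⟩
  have h3 : (∑ v ∈ T, ((Icc 1 K).filter fun k => primeCounting (k * n) = v).card : ℕ) ≤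
      (hits n K r).card := by
    rw [← card_biUnion]
    · exact card_le_card h2
    · intro v _ w _ hvw
      show Disjoint _ _
      rw [Finset.disjoint_left]
      intro k hk hk'
      exact hvw ((mem_filter.1 hk).2.symm.trans (mem_filter.1 hk').2)
  have h4 : (T.card : ℝ) * (H / n - 1) ≤
      ∑ v ∈ T, ((((Icc 1 K).filter fun k => primeCounting (k * n) = v).card : ℕ) : ℝ) := by
    rw [← nsmul_eq_mul, ← Finset.sum_const]
    apply Finset.sum_le_sum
    intro v hv
    have hv' := mem_filter.1 hv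
    have hv2 := mem_Ico.1 (mem_filter.1 hv'.1).1
    refine le_trans ?_ (card_value hn hv2.1 hv2.2)
    have : H / n ≤ ((pr (v + 1) : ℝ) - pr v) / n := div_le_div_of_nonneg_right hv'.2 hn'.le
    linarith
  calc _ ≤ (T.card : ℝ) * (H / n - 1) := mul_le_mul_of_nonneg_right h1' hpos
    _ ≤ _ := h4
    _ ≤ _ := by exact_mod_cast h3

theorem sum_short_le (n K : ℕ) (H : ℝ) (B : Finset ℕ) (hB : B ⊆ range n) :
    ∑ r ∈ B, ((short n K H).filter fun v => v ≡ r [MOD n]).card ≤ (short n K H).card := by
  classical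
  rw [← card_biUnion]
  · apply card_le_card
    intro v hv
    rw [mem_biUnion] at hv
    obtain ⟨r, -, hr⟩ := hv
    exact (mem_filter.1 hr).1
  · intro r hr s hs hrs
    show Disjoint _ _
    rw [Finset.disjoint_left]
    intro v hv hv'
    have h1 := (mem_filter.1 hv).2
    have h2 := (mem_filter.1 hv').2
    have h3 : r ≡ s [MOD n] := h1.symm.trans h2
    have hr' := mem_range.1 (hB hr)
    have hs' := mem_range.1 (hB hs)
    exact hrs (Nat.ModEq.eq_of_lt_of_lt h3 hr' hs')

end Pool.Agent.Helper52.PN
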