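import Pool.Agent.Helper52.PN.PhiRatio
import Pool.Agent.Helper52.PN.Count
import Pool.Agent.Helper7.NX3.PairSieve

/-! All but few residue classes are met by `π(k n)`. -/

set_option autoImplicit false

open Finset

namespace Pool.Agent.Helper52.PN

open Nat (primeCounting)

/-- the number of short gaps -/
theorem short_bound : ∃ D : ℝ, 0 < D ∧ ∃ Z0 : ℕ, ∀ (n K : ℕ) (H : ℝ), 0 ≤ H → Z0 ≤ K * n →
    ((short n K H).card : ℝ) ≤ D * H * ((K * n : ℕ) / (Real.log (K * n : ℕ)) ^ 2) := by
  obtain ⟨C, hC, Z0, hZ⟩ := Pool.Agent.Helper57.NX3.pair_sieve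
  have hc0 : 0 < ∑' d : ℕ, Pool.Agent.Helper26.CA.fA d := Pool.Agent.Helper26.CA.c0_pos
  refine ⟨C * ∑' d : ℕ, Pool.Agent.Helper26.CA.fA d, by positivity, Z0, ?_⟩
  intro n K H hH hK
  have h1 := card_short_le (n := n) (K := K) hH
  have h2 : ((short n K H).card : ℝ) ≤ ∑ h ∈ Ioc 0 ⌊H⌋₊,
      (((range (K * n)).filter (fun m => m.Prime ∧ (m + h).Prime)).card : ℝ) := by
    exact_mod_cast h1
  set Y : ℝ := ((K * n : ℕ) : ℝ) / (Real.log (K * n : ℕ)) ^ 2 with hY
  have hY0 : 0 ≤ Y := by positivity
  calc ((short n K H).card : ℝ) ≤ ∑ h ∈ Ioc 0 ⌊H⌋₊, C * ((h : ℝ) / h.totient) * Y := by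
        refine h2.trans (Finset.sum_le_sum fun h hh => ?_)
        exact hZ (K * n) hK h (mem_Ioc.1 hh).1
    _ = C * Y * ∑ h ∈ Ioc 0 ⌊H⌋₊, (h : ℝ) / h.totient := by
        rw [Finset.mul_sum]
        exact Finset.sum_congr rfl fun h _ => by ring
    _ ≤ C * Y * ((∑' d : ℕ, Pool.Agent.Helper26.CA.fA d) * ⌊H⌋₊) :=
        mul_le_mul_of_nonneg_left (sum_ratio_le _) (by positivity)
    _ ≤ C * Y * ((∑' d : ℕ, Pool.Agent.Helper26.CA.fA d) * H) := by
        apply mul_le_mul_of_nonneg_left _ (by positivity)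
        exact mul_le_mul_of_nonneg_left (Nat.floor_le hH) hc0.le
    _ = _ := by ring

theorem log_le_sixteenth {K : ℝ} (hK : 1024 ≤ K) : 16 * Real.log K ≤ K := by
  have h0 : 0 < K := by linarith
  have hs : 0 < Real.sqrt K := Real.sqrt_pos.2 h0
  have h1 : Real.log K = 2 * Real.log (Real.sqrt K) := by
    rw [Real.log_sqrt h0.le]; ring
  have h2 := Real.log_le_sub_one_of_pos hs
  have h3 : (32 : ℝ) ≤ Real.sqrt K := by
    rw [Real.le_sqrt (by norm_num) h0.le]
    linarith
  have h4 : Real.sqrt K * Real.sqrt K = K := Real.mul_self_sqrt h0.le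
  nlinarith

/-- the lower bound for `π` -/
theorem pi_lower {x : ℕ} (hx : 1024 ≤ x) : (x : ℝ) / (2 * Real.log x) ≤ primeCounting x := by
  have hx' : (1024 : ℝ) ≤ x := by exact_mod_cast hx
  have hlog : 0 < Real.log x := Real.log_pos (by linarith)
  have h1 := Chebyshev.psi_le_primeCounting_mul_log x
  have h2 := Chebyshev.psi_ge x
  have h3 : Real.log (x + 1) ≤ (x + 1) / 16 := by
    have := log_le_sixteenth (K := (x : ℝ) + 1) (by linarith)
    linarith
  have h4 := Real.log_two_gt_d9
  rw [div_le_iff₀ (by positivity)]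
  have h5 : (x : ℝ) / 2 ≤ x * Real.log 2 - Real.log (x + 1) := by nlinarith
  have h6 : (x : ℝ) / 2 ≤ primeCounting x * Real.log x := h5.trans (h2.trans h1)
  linarith

/-- **All but few residue classes.** -/
theorem main : ∃ C : ℝ, 0 < C ∧ ∀ (n K : ℕ) (μ : ℝ), 1 ≤ n → 2 ≤ K → C * n ≤ μ * Real.log K →
    (((range n).filter fun r => ((hits n K r).card : ℝ) < μ * K / (C * n)).card : ℝ) ≤
      μ * n := by
  obtain ⟨D, hD, Z0, hmis⟩ := short_bound
  -- the constants
  set A : ℝ := 16 * D + 1 with hA
  have hA0 : 1 ≤ A := by linarith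
  set C : ℝ := 1024 + Z0 + 32 * A with hCdef
  have hZ00 : (0 : ℝ) ≤ Z0 := Nat.cast_nonneg _
  have hC1024 : 1024 ≤ C := by linarith
  have hCZ : (Z0 : ℝ) ≤ C := by linarith
  have hCA : 32 * A ≤ C := by linarith
  have hC0 : 0 < C := by linarith
  refine ⟨C, hC0, ?_⟩
  intro n K μ hn hK hμ
  have hK2 : (2 : ℝ) ≤ K := by exact_mod_cast hK
  have hn1 : (1 : ℝ) ≤ n := by exact_mod_cast hn
  have hn0 : (0 : ℝ) < n := by linarith
  set L : ℝ := Real.log K with hL
  have hL0 : 0 < L := Real.log_pos (by linarith)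
  have hμ0 : 0 < μ := by
    by_contra hcon
    have h1 : μ * L ≤ 0 := mul_nonpos_of_nonpos_of_nonneg (not_lt.1 hcon) hL0.le
    nlinarith
  set B := (range n).filter fun r => ((hits n K r).card : ℝ) < μ * K / (C * n) with hB
  by_cases hcase : 1 ≤ μ
  · -- trivial bound
    have h1 : (B.card : ℝ) ≤ n := by
      have : B.card ≤ (range n).card := card_filter_le _ _
      rw [card_range] at this
      exact_mod_cast this
    refine h1.trans ?_
    nlinarith
  · rw [not_le] at hcase
    have hLn : C * n ≤ L := hμ.trans (by nlinarith)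
    have hLC : C ≤ L := le_trans (by nlinarith) hLn
    have hKL : L ≤ K - 1 := Real.log_le_sub_one_of_pos (by linarith)
    have hK1024 : (1024 : ℝ) ≤ K := by linarith
    have hnL : (n : ℝ) ≤ L := by nlinarith
    have hnK : (n : ℝ) ≤ K := by linarith
    have hx : ((K * n : ℕ) : ℝ) = (K : ℝ) * n := by push_cast; ring
    have hxK : (K : ℝ) ≤ (K * n : ℕ) := by rw [hx]; nlinarith
    have hxK2 : ((K * n : ℕ) : ℝ) ≤ (K : ℝ) ^ 2 := by rw [hx]; nlinarith
    have hx1024 : 1024 ≤ K * n := by
      have : (1024 : ℝ) ≤ (K * n : ℕ) := by linarith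
      exact_mod_cast this
    have hZx : Z0 ≤ K * n := by
      have : (Z0 : ℝ) ≤ (K * n : ℕ) := by linarith
      exact_mod_cast this
    have hlx1 : L ≤ Real.log (K * n : ℕ) := Real.log_le_log (by linarith) hxK
    have hlx2 : Real.log (K * n : ℕ) ≤ 2 * L := by
      have h1 := Real.log_le_log (by linarith) hxK2
      rw [Real.log_pow] at h1
      push_cast at h1 ⊢
      exact h1
    set X : ℝ := Real.log (K * n : ℕ) with hX
    have hX0 : 0 < X := by linarith
    set P : ℕ := primeCounting (K * n) with hPdef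
    -- the number of values in a class
    have hP := pi_lower hx1024
    rw [← hPdef, ← hX] at hP
    have hP1 : 1 ≤ P := by
      have h1 : (0 : ℝ) < ((K * n : ℕ) : ℝ) / (2 * X) := by
        apply div_pos _ (by positivity)
        linarith
      have h2 : (0 : ℝ) < P := lt_of_lt_of_le h1 hP
      exact_mod_cast h2
    have hclass : ∀ r, r < n → (K : ℝ) / (8 * L) ≤
        (((Ico 1 P).filter fun v => v ≡ r [MOD n]).card : ℝ) := by
      intro r hr
      have h0 := class_card (P := P - 1) hr
      rw [Nat.sub_add_cancel hP1] at h0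
      have h0' : (((P - 1) / n : ℕ) : ℝ) ≤
        (((Ico 1 P).filter fun v => v ≡ r [MOD n]).card : ℝ) := by exact_mod_cast h0
      refine le_trans ?_ h0'
      have h1 : (P : ℝ) / n - 2 ≤ (((P - 1) / n : ℕ) : ℝ) := by
        have h2 := Nat.lt_div_mul_add (a := P - 1) (by omega : 0 < n)
        have h2' : P ≤ (P - 1) / n * n + n := by omega
        have h3 : (P : ℝ) ≤ (((P - 1) / n : ℕ) : ℝ) * n + n := by exact_mod_cast h2'
        have h4 : (P : ℝ) / n ≤ (((P - 1) / n : ℕ) : ℝ) + 1 := by
          rw [div_le_iff₀ hn0]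
          linarith
        linarith
      have h2 : (K : ℝ) / (4 * L) ≤ (P : ℝ) / n := by
        rw [le_div_iff₀ hn0]
        refine le_trans ?_ hP
        have e : (K : ℝ) / (4 * L) * n = ((K * n : ℕ) : ℝ) / (4 * L) := by rw [hx]; ring
        rw [e]
        apply div_le_div_of_nonneg_left (Nat.cast_nonneg _) (by positivity)
        linarith
      have h3 : 2 ≤ (K : ℝ) / (8 * L) := by
        rw [le_div_iff₀ (by positivity)]
        have := log_le_sixteenth hK1024
        linarith
      have h4 : (K : ℝ) / (4 * L) = K / (8 * L) + K / (8 * L) := by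
        field_simp
        ring
      linarith
    -- the length of a long gap
    set H : ℝ := μ * L / A with hH
    have hH0 : 0 < H := by positivity
    have hHA : H * A = μ * L := by rw [hH]; field_simp
    have hH2 : 2 * n ≤ H := by
      rw [hH, le_div_iff₀ (by linarith)]
      nlinarith
    have hHn : H / (2 * n) ≤ H / n - 1 := by
      have e : H / n - 1 - H / (2 * n) = (H - 2 * n) / (2 * n) := by
        field_simp
        ring
      have : 0 ≤ (H - 2 * n) / (2 * n) := div_nonneg (by linarith) (by linarith)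
      linarith
    have hHpos : 0 < H / (2 * n) := by positivity
    -- a bad class has many short gaps
    have hbad : ∀ r ∈ B, (K : ℝ) / (16 * L) ≤
        (((short n K H).filter fun v => v ≡ r [MOD n]).card : ℝ) := by
      intro r hr
      rw [hB, mem_filter, mem_range] at hr
      have h1 := hclass r hr.1
      rcases long_le (n := n) (K := K) (r := r) (H := H) hn with h2 | h2
      · rw [← hPdef] at h2
        set S : ℝ := (((Ico 1 P).filter fun v => v ≡ r [MOD n]).card : ℝ) with hS
        set s : ℝ := (((short n K H).filter fun v => v ≡ r [MOD n]).card : ℝ) with hs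
        by_contra hcon
        rw [not_le] at hcon
        have h3 : (K : ℝ) / (8 * L) = K / (16 * L) + K / (16 * L) := by
          field_simp
          ring
        have h4 : (K : ℝ) / (16 * L) ≤ S - s := by linarith
        have h5 : (K : ℝ) / (16 * L) * (H / (2 * n)) ≤ (S - s) * (H / n - 1) := by
          have h6 : (0 : ℝ) ≤ K / (16 * L) := by positivity
          exact mul_le_mul h4 hHn hHpos.le (by linarith)
        have h6 : (K : ℝ) / (16 * L) * (H / (2 * n)) = μ * K / (32 * A * n) := by
          rw [hH]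
          field_simp
          ring
        have h7 : μ * K / (C * n) ≤ μ * K / (32 * A * n) := by
          apply div_le_div_of_nonneg_left (by positivity) (by positivity)
          nlinarith
        linarith [hr.2]
      · exfalso
        linarith
    have hsum : (B.card : ℝ) * (K / (16 * L)) ≤ ((short n K H).card : ℝ) := by
      calc (B.card : ℝ) * (K / (16 * L)) = ∑ r ∈ B, (K : ℝ) / (16 * L) := by
            rw [Finset.sum_const, nsmul_eq_mul]
        _ ≤ ∑ r ∈ B, (((short n K H).filter fun v => v ≡ r [MOD n]).card : ℝ) :=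
            Finset.sum_le_sum hbad
        _ ≤ ((short n K H).card : ℝ) := by
            exact_mod_cast sum_short_le n K H B (filter_subset _ _)
    have hJ := hmis n K H hH0.le hZx
    have hJ2 : D * H * ((K * n : ℕ) / X ^ 2) ≤ D * H * ((K * n : ℕ) / L ^ 2) := by
      apply mul_le_mul_of_nonneg_left _ (by positivity)
      apply div_le_div_of_nonneg_left (by positivity) (by positivity)
      exact pow_le_pow_left₀ hL0.le hlx1 2
    have h5 : (B.card : ℝ) * (K / (16 * L)) ≤ D * H * ((K * n : ℕ) / L ^ 2) :=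
      hsum.trans (hJ.trans hJ2)
    have h6 : D * H * ((K * n : ℕ) / L ^ 2) = (16 * D / A * (μ * n)) * (K / (16 * L)) := by
      rw [hx, hH]
      field_simp
    rw [h6] at h5
    have h7 : 0 < (K : ℝ) / (16 * L) := by positivity
    have h8 := le_of_mul_le_mul_right h5 h7
    refine h8.trans ?_
    have h9 : 16 * D / A ≤ 1 := by
      rw [div_le_one (by linarith)]
      linarith
    have h10 : 0 ≤ μ * n := by positivity
    nlinarith

end Pool.Agent.Helper52.PN
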