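import Pool.Agent.Helper26.CA.PhiSum

/-! The sum of `h / φ(h)` for `h ≤ n` is at most a constant times `n`. -/

set_option autoImplicit false

open Finset

namespace Pool.Agent.Helper52.PN

open Pool.Agent.Helper26.CA

theorem ratio_eq_sum {h : ℕ} (hh : 1 ≤ h) :
    (h : ℝ) / h.totient = ∑ d ∈ h.divisors, (d : ℝ) * fA d := by
  have h1 : hA h = (fA * gA) h := by rw [conv]
  rw [ArithmeticFunction.mul_apply, hA_apply] at h1
  have h2 : (h : ℝ) / h.totient = h * (1 / (h.totient : ℝ)) := by ring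
  rw [h2, h1, Finset.mul_sum, Nat.sum_divisorsAntidiagonal (fun d e => (h : ℝ) * (fA d * gA e))]
  refine Finset.sum_congr rfl fun d hd => ?_
  have hdvd := Nat.dvd_of_mem_divisors hd
  obtain ⟨e, rfl⟩ := hdvd
  have hd0 : 0 < d := Nat.pos_of_mul_pos_right (by omega : 0 < d * e) |> fun _ => by
    rcases Nat.eq_zero_or_pos d with h0 | h0
    · subst h0; simp at hh
    · exact h0
  have he0 : 0 < e := by
    rcases Nat.eq_zero_or_pos e with h0 | h0
    · subst h0; simp at hh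
    · exact h0
  rw [Nat.mul_div_cancel_left e hd0, gA_apply]
  have : (e : ℝ) ≠ 0 := by exact_mod_cast he0.ne'
  push_cast
  field_simp

theorem sum_ratio_le (n : ℕ) :
    ∑ h ∈ Ioc 0 n, (h : ℝ) / h.totient ≤ (∑' d : ℕ, fA d) * n := by
  have h1 : ∑ h ∈ Ioc 0 n, (h : ℝ) / h.totient =
      ∑ h ∈ Ioc 0 n, ∑ d ∈ h.divisors, (d : ℝ) * fA d :=
    Finset.sum_congr rfl fun h hh => ratio_eq_sum (Finset.mem_Ioc.1 hh).1
  have h2 : ∑ h ∈ Ioc 0 n, ∑ d ∈ h.divisors, (d : ℝ) * fA d =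
      ∑ d ∈ Ioc 0 n, ∑ h ∈ (Ioc 0 n).filter (fun h => d ∣ h), (d : ℝ) * fA d := by
    apply Finset.sum_comm'
    intro h d
    rw [Finset.mem_Ioc, Nat.mem_divisors, Finset.mem_filter, Finset.mem_Ioc, Finset.mem_Ioc]
    constructor
    · rintro ⟨⟨a, b⟩, c, -⟩
      exact ⟨⟨⟨a, b⟩, c⟩, Nat.pos_of_dvd_of_pos c a, (Nat.le_of_dvd a c).trans b⟩
    · rintro ⟨⟨⟨a, b⟩, c⟩, -, -⟩
      exact ⟨⟨a, b⟩, c, by omega⟩
  rw [h1, h2]
  calc ∑ d ∈ Ioc 0 n, ∑ h ∈ (Ioc 0 n).filter (fun h => d ∣ h), (d : ℝ) * fA d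
      ≤ ∑ d ∈ Ioc 0 n, fA d * n := by
        refine Finset.sum_le_sum fun d hd => ?_
        have hd0 := (Finset.mem_Ioc.1 hd).1
        rw [Finset.sum_const, Nat.Ioc_filter_dvd_card_eq_div, nsmul_eq_mul]
        have h3 : ((n / d : ℕ) : ℝ) ≤ n / d := Nat.cast_div_le
        have h4 : (0 : ℝ) < d := by exact_mod_cast hd0
        have h5 := fA_nonneg d
        calc ((n / d : ℕ) : ℝ) * ((d : ℝ) * fA d) ≤ (n / d) * ((d : ℝ) * fA d) :=
              mul_le_mul_of_nonneg_right h3 (by positivity)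
          _ = fA d * n := by field_simp
    _ = (∑ d ∈ Ioc 0 n, fA d) * n := by rw [Finset.sum_mul]
    _ ≤ (∑' d : ℕ, fA d) * n := by
        apply mul_le_mul_of_nonneg_right _ (Nat.cast_nonneg n)
        exact summable_fA.sum_le_tsum _ fun d _ => fA_nonneg d

end Pool.Agent.Helper52.PN
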